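import Pool.Agent.TH12.Hopf.Sys

set_option autoImplicit false

/-! All overlaps of the rewriting system are resolvable. -/

namespace Pool.Agent.TH12.Hopf

namespace Dat

variable {k : Type} [Field k] {I : Type} [Fintype I] [DecidableEq I] (D : Dat k I)

lemma K_l {w : List (ℕ × I × I)} {a : ℕ × I × I} {r : Rl I}
    (h : lt D.wt [a, D.lx r, D.ly r] w) : wd [a] * D.rl r ∈ D.sys.K w := by
  have h1 := D.sys.mem_K (w := w) (u := [a]) (v := []) (r := r) h
  rw [wd_nil, mul_one] at h1
  exact h1

lemma K_r {w : List (ℕ × I × I)} {b : ℕ × I × I} {r : Rl I}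
    (h : lt D.wt [D.lx r, D.ly r, b] w) : D.rl r * wd [b] ∈ D.sys.K w := by
  have h1 := D.sys.mem_K (w := w) (u := []) (v := [b]) (r := r) h
  rw [wd_nil, one_mul] at h1
  exact h1

lemma K_s {x y z : ℕ × I × I} (r : Rl I) : D.rl r ∈ D.sys.K [x, y, z] := by
  have h1 := D.sys.mem_K (w := [x, y, z]) (u := []) (v := []) (r := r) (by left; simp)
  rw [wd_nil, one_mul, mul_one] at h1
  exact h1

lemma lt3 (a b c a' b' c' : ℕ × I × I)
    (h : D.wt a + D.wt b + D.wt c < D.wt a' + D.wt b' + D.wt c') :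
    lt D.wt [a, b, c] [a', b', c'] := by
  right
  simp only [List.length_cons, List.length_nil, List.map_cons, List.map_nil, List.sum_cons,
    List.sum_nil, true_and]
  omega

lemma c2 (i : ℕ) (a o' : I) :
    evr (X k) i a (D.p (i + 1)) * X k (i + 1) o' (D.p (i + 1)) -
      X k (i + 1) (D.p i) a * cor (X k) i (D.p i) o' ∈
    D.sys.K [(i + 1, D.p i, a), (i, D.p i, D.p (i + 1)), (i + 1, o', D.p (i + 1))] := by
  apply diff_mem (D.sys.K _) (fun b => evr (X k) i a b * X k (i + 1) o' b)
    (fun o => X k (i + 1) o a * cor (X k) i o o') (D.p (i + 1)) (D.p i)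
  · intro b hb
    apply D.K_r (r := .ev i a b)
    apply D.lt3
    have := D.evdom (i + 1) b hb
    simp only [wt, lx, ly]
    omega
  · intro o ho
    apply D.K_l (r := .co i o o')
    apply D.lt3
    have := D.evdom i o ho
    simp only [wt, lx, ly]
    omega
  · rw [← neg_sub, id2, neg_zero]
    exact Submodule.zero_mem _

lemma c5 (i : ℕ) (o b : I) :
    cor (X k) i o (D.p i) * X k i (D.p i) b -
      X k i o (D.p (i + 1)) * evr (X k) i (D.p (i + 1)) b ∈
    D.sys.K [(i, o, D.p (i + 1)), (i + 1, D.p i, D.p (i + 1)), (i, D.p i, b)] := by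
  apply diff_mem (D.sys.K _) (fun o' => cor (X k) i o o' * X k i o' b)
    (fun a => X k i o a * evr (X k) i a b) (D.p i) (D.p (i + 1))
  · intro o' ho
    apply D.K_r (r := .co i o o')
    apply D.lt3
    have := D.evdom i o' ho
    simp only [wt, lx, ly]
    omega
  · intro a ha
    apply D.K_l (r := .ev i a b)
    apply D.lt3
    have := D.evdom (i + 1) a ha
    simp only [wt, lx, ly]
    omega
  · rw [id5]
    exact Submodule.zero_mem _

lemma c10 (m : ℕ) (c a o' : I) :
    Er D.T (X k) m c a (D.p (lev (m + 1) + 1)) * X k (lev (m + 1) + 1) o' (D.p (lev (m + 1) + 1)) -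
      X k (lev (m + 2)) (D.piv m c).1 a * cor (X k) (lev (m + 1)) (D.piv m c).2 o' ∈
    D.sys.K [(lev (m + 2), (D.piv m c).1, a),
      (lev (m + 1), (D.piv m c).2, D.p (lev (m + 1) + 1)),
      (lev (m + 1) + 1, o', D.p (lev (m + 1) + 1))] := by
  have h := diff_mem (D.sys.K [(lev (m + 2), (D.piv m c).1, a),
      (lev (m + 1), (D.piv m c).2, D.p (lev (m + 1) + 1)),
      (lev (m + 1) + 1, o', D.p (lev (m + 1) + 1))])
    (fun b => Er D.T (X k) m c a b * X k (lev (m + 1) + 1) o' b)
    (fun q : I × I => D.T m q.1 q.2 c •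
      (X k (lev (m + 2)) q.1 a * cor (X k) (lev (m + 1)) q.2 o'))
    (D.p (lev (m + 1) + 1)) (D.piv m c) ?_ ?_ ?_
  · simpa only [D.Tpiv, one_smul] using h
  · intro b hb
    apply D.K_r (r := .ef m c a b)
    apply D.lt3
    have := D.evdom (lev (m + 1) + 1) b hb
    simp only [wt, lx, ly]
    omega
  · intro q hq
    by_cases hT : D.T m q.1 q.2 c = 0
    · simp only [hT, zero_smul]; exact Submodule.zero_mem _
    · apply Submodule.smul_mem
      apply D.K_l (r := .co (lev (m + 1)) q.2 o')
      apply D.lt3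
      have := D.dom m c q hT hq
      simp only [wt, lx, ly]
      omega
  · rw [← neg_sub, id10 D.rot]
    exact Submodule.neg_mem _ (D.K_s (.jf m a c o'))

lemma c4 (m : ℕ) (c a o' : I) :
    evr (X k) (lev m + 1) a (D.piv (m + 2) c).2 *
        X k (lev (m + 1) + 1) o' (D.piv (m + 2) c).1 -
      X k (lev m + 1 + 1) (D.p (lev m + 1)) a * Ir D.T (X k) m c (D.p (lev m + 1)) o' ∈
    D.sys.K [(lev m + 1 + 1, D.p (lev m + 1), a),
      (lev m + 1, D.p (lev m + 1), (D.piv (m + 2) c).2),
      (lev (m + 1) + 1, o', (D.piv (m + 2) c).1)] := by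
  have h := diff_mem (D.sys.K [(lev m + 1 + 1, D.p (lev m + 1), a),
      (lev m + 1, D.p (lev m + 1), (D.piv (m + 2) c).2),
      (lev (m + 1) + 1, o', (D.piv (m + 2) c).1)])
    (fun q : I × I => D.T (m + 2) q.1 q.2 c •
      (evr (X k) (lev m + 1) a q.2 * X k (lev (m + 1) + 1) o' q.1))
    (fun o => X k (lev m + 1 + 1) o a * Ir D.T (X k) m c o o')
    (D.piv (m + 2) c) (D.p (lev m + 1)) ?_ ?_ ?_
  · simpa only [D.Tpiv, one_smul] using h
  · intro q hq
    by_cases hT : D.T (m + 2) q.1 q.2 c = 0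
    · simp only [hT, zero_smul]; exact Submodule.zero_mem _
    · apply Submodule.smul_mem
      apply D.K_r (r := .ev (lev m + 1) a q.2)
      apply D.lt3
      have h1 := D.dom (m + 2) c q hT hq
      rw [show m + 2 + 2 = (m + 1) + 3 from rfl, show m + 2 + 1 = m + 3 from rfl, lev_add,
        lev_add] at h1
      have e1 : lev (m + 1) + 1 + 1 = lev (m + 1) + 2 := rfl
      have e2 : lev m + 1 + 1 = lev m + 2 := rfl
      simp only [wt, lx, ly]
      rw [e1, e2]
      omega
  · intro o ho
    apply D.K_l (r := .jf m c o o')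
    apply D.lt3
    have := D.evdom (lev m + 1) o ho
    simp only [wt, lx, ly]
    omega
  · rw [← neg_sub, id4 D.rot, neg_neg]
    exact D.K_s (.ef (m + 1) o' a c)

lemma c7 (m : ℕ) (c o b : I) :
    cor (X k) (lev m + 1) o (D.piv (m + 1) c).1 * X k (lev (m + 2)) (D.piv (m + 1) c).2 b -
      X k (lev m + 1) o (D.p (lev m + 1 + 1)) *
        Er D.T (X k) (m + 1) c (D.p (lev m + 1 + 1)) b ∈
    D.sys.K [(lev m + 1, o, D.p (lev m + 1 + 1)),
      (lev m + 1 + 1, (D.piv (m + 1) c).1, D.p (lev m + 1 + 1)),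
      (lev (m + 2), (D.piv (m + 1) c).2, b)] := by
  have e3 : lev (m + 3) = lev m + 1 + 1 := lev_add m
  have h := diff_mem (D.sys.K [(lev m + 1, o, D.p (lev m + 1 + 1)),
      (lev m + 1 + 1, (D.piv (m + 1) c).1, D.p (lev m + 1 + 1)),
      (lev (m + 2), (D.piv (m + 1) c).2, b)])
    (fun q : I × I => D.T (m + 1) q.1 q.2 c •
      (cor (X k) (lev m + 1) o q.1 * X k (lev (m + 2)) q.2 b))
    (fun a => X k (lev m + 1) o a * Er D.T (X k) (m + 1) c a b)
    (D.piv (m + 1) c) (D.p (lev m + 1 + 1)) ?_ ?_ ?_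
  · simpa only [D.Tpiv, one_smul] using h
  · intro q hq
    by_cases hT : D.T (m + 1) q.1 q.2 c = 0
    · simp only [hT, zero_smul]; exact Submodule.zero_mem _
    · apply Submodule.smul_mem
      apply D.K_r (r := .co (lev m + 1) o q.1)
      apply D.lt3
      have h1 := D.dom (m + 1) c q hT hq
      rw [show m + 1 + 2 = m + 3 from rfl, show m + 1 + 1 = m + 2 from rfl, e3] at h1
      simp only [wt, lx, ly]
      omega
  · intro a ha
    apply D.K_l (r := .ef (m + 1) c a b)
    have h1 := D.evdom (lev m + 1 + 1) a ha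
    simp only [lx, ly]
    rw [show m + 1 + 2 = m + 3 from rfl, show m + 1 + 1 = m + 2 from rfl, e3]
    apply D.lt3
    simp only [wt]
    omega
  · rw [id7 D.rot]
    exact D.K_s (.jf m b o c)

lemma c13 (m : ℕ) (c o b : I) :
    Ir D.T (X k) m c o (D.p (lev (m + 1))) * X k (lev (m + 1)) (D.p (lev (m + 1))) b -
      X k (lev m + 1) o (D.piv (m + 2) c).2 *
        evr (X k) (lev (m + 1)) (D.piv (m + 2) c).1 b ∈
    D.sys.K [(lev m + 1, o, (D.piv (m + 2) c).2),
      (lev (m + 1) + 1, D.p (lev (m + 1)), (D.piv (m + 2) c).1),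
      (lev (m + 1), D.p (lev (m + 1)), b)] := by
  have h := diff_mem (D.sys.K [(lev m + 1, o, (D.piv (m + 2) c).2),
      (lev (m + 1) + 1, D.p (lev (m + 1)), (D.piv (m + 2) c).1),
      (lev (m + 1), D.p (lev (m + 1)), b)])
    (fun o' => Ir D.T (X k) m c o o' * X k (lev (m + 1)) o' b)
    (fun q : I × I => D.T (m + 2) q.1 q.2 c •
      (X k (lev m + 1) o q.2 * evr (X k) (lev (m + 1)) q.1 b))
    (D.p (lev (m + 1))) (D.piv (m + 2) c) ?_ ?_ ?_
  · simpa only [D.Tpiv, one_smul] using h
  · intro o' ho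
    apply D.K_r (r := .jf m c o o')
    apply D.lt3
    have := D.evdom (lev (m + 1)) o' ho
    simp only [wt, lx, ly]
    omega
  · intro q hq
    by_cases hT : D.T (m + 2) q.1 q.2 c = 0
    · simp only [hT, zero_smul]; exact Submodule.zero_mem _
    · apply Submodule.smul_mem
      apply D.K_l (r := .ev (lev (m + 1)) q.1 b)
      apply D.lt3
      have h1 := D.dom (m + 2) c q hT hq
      rw [show m + 2 + 2 = (m + 1) + 3 from rfl, show m + 2 + 1 = m + 3 from rfl, lev_add,
        lev_add] at h1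
      have e1 : lev (m + 1) + 1 + 1 = lev (m + 1) + 2 := rfl
      have e2 : lev m + 1 + 1 = lev m + 2 := rfl
      simp only [wt, lx, ly]
      rw [e1, e2]
      omega
  · rw [id13 D.rot]
    exact Submodule.neg_mem _ (D.K_s (.ef m o c b))

lemma c11 (m : ℕ) (c c' a b d : I) (hs : (D.piv (m + 1) c').2 = (D.piv m c).1)
    (hc' : c' = (D.piv m c).2) (hc : c = (D.piv (m + 1) c').1) :
    Er D.T (X k) (m + 1) c' a b * X k (lev (m + 1)) c' d -
      X k (lev (m + 3)) c a * Er D.T (X k) m c b d ∈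
    D.sys.K [(lev (m + 3), c, a), (lev (m + 2), (D.piv m c).1, b), (lev (m + 1), c', d)] := by
  apply diff_mem (D.sys.K _) (fun j => Er D.T (X k) (m + 1) j a b * X k (lev (m + 1)) j d)
    (fun j => X k (lev (m + 3)) j a * Er D.T (X k) m j b d) c' c
  · intro j hj
    apply D.K_r (r := .ef (m + 1) j a b)
    apply D.lt3
    have h1 := D.sp m c c' hs (D.piv (m + 1) j).1 (D.piv (m + 1) j).2 j
      (by rw [D.Tpiv]; exact one_ne_zero) (fun h => hj h.2.2)
    simp only [wt, lx, ly]
    rw [show m + 1 + 2 = m + 3 from rfl, show m + 1 + 1 = m + 2 from rfl]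
    omega
  · intro j hj
    apply D.K_l (r := .ef m j b d)
    apply D.lt3
    have h1 := D.sp m c c' hs j (D.piv m j).1 (D.piv m j).2
      (by rw [D.rot, D.Tpiv]; exact one_ne_zero) (fun h => hj h.1)
    simp only [wt, lx, ly]
    omega
  · rw [id11 D.rot]
    apply Submodule.sub_mem
    · apply Submodule.sum_mem
      intro l _
      exact Submodule.smul_mem _ _ (D.K_s (.ev (lev m + 1) a l))
    · apply Submodule.sum_mem
      intro l _
      exact Submodule.smul_mem _ _ (D.K_s (.ev (lev (m + 1)) l d))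

lemma c16 (m : ℕ) (c c' o o' o2 : I) (hs : (D.piv (m + 3) c').2 = (D.piv (m + 2) c).1)
    (hc' : c' = (D.piv (m + 2) c).2) (hc : c = (D.piv (m + 3) c').1) :
    Ir D.T (X k) m c o o' * X k (lev (m + 2) + 1) o2 c -
      X k (lev m + 1) o c' * Ir D.T (X k) (m + 1) c' o' o2 ∈
    D.sys.K [(lev m + 1, o, c'), (lev (m + 1) + 1, o', (D.piv (m + 2) c).1),
      (lev (m + 2) + 1, o2, c)] := by
  have e0 : lev (m + 3) = lev m + 1 + 1 := lev_add m
  have e1 : lev (m + 4) = lev (m + 1) + 1 + 1 := lev_add (m + 1)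
  have e2 : lev (m + 5) = lev (m + 2) + 1 + 1 := lev_add (m + 2)
  apply diff_mem (D.sys.K _) (fun j => Ir D.T (X k) m j o o' * X k (lev (m + 2) + 1) o2 j)
    (fun j => X k (lev m + 1) o j * Ir D.T (X k) (m + 1) j o' o2) c c'
  · intro j hj
    apply D.K_r (r := .jf m j o o')
    apply D.lt3
    have h1 := D.sp (m + 2) c c' hs j (D.piv (m + 2) j).1 (D.piv (m + 2) j).2
      (by rw [D.rot, D.Tpiv]; exact one_ne_zero) (fun h => hj h.1)
    simp only [show m + 2 + 3 = m + 5 from rfl, show m + 2 + 2 = m + 4 from rfl,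
      show m + 2 + 1 = m + 3 from rfl, e0, e1, e2] at h1
    simp only [wt, lx, ly]
    omega
  · intro j hj
    apply D.K_l (r := .jf (m + 1) j o' o2)
    apply D.lt3
    have h1 := D.sp (m + 2) c c' hs (D.piv (m + 3) j).1 (D.piv (m + 3) j).2 j
      (by rw [show m + 2 + 1 = m + 3 from rfl, D.Tpiv]; exact one_ne_zero) (fun h => hj h.2.2)
    simp only [show m + 2 + 3 = m + 5 from rfl, show m + 2 + 2 = m + 4 from rfl,
      show m + 2 + 1 = m + 3 from rfl, e0, e1, e2] at h1
    simp only [wt, lx, ly, show m + 1 + 2 = m + 3 from rfl, show m + 1 + 1 = m + 2 from rfl]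
    omega
  · rw [id16 D.rot]
    apply Submodule.sub_mem
    · apply Submodule.sum_mem
      intro l _
      exact Submodule.smul_mem _ _ (D.K_s (.co (lev m + 1) o l))
    · apply Submodule.sum_mem
      intro l _
      exact Submodule.smul_mem _ _ (D.K_s (.co (lev (m + 2)) l o2))

theorem res : D.sys.Res := by
  intro r r' h
  change D.ly r = D.lx r' at h
  change D.rl r * wd [D.ly r'] - wd [D.lx r] * D.rl r' ∈ D.sys.K [D.lx r, D.ly r, D.ly r']
  cases r with
  | ev i a b =>
    cases r' with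
    | ev j a' b' =>
      simp only [lx, ly, Prod.mk.injEq] at h
      obtain ⟨h1, h2, -⟩ := h
      subst h1
      exact absurd h2.symm (D.pp j)
    | co j o o' =>
      simp only [lx, ly, Prod.mk.injEq] at h
      obtain ⟨h1, h2, h3⟩ := h
      subst h1; subst h2; subst h3
      exact D.c2 i a o'
    | ef m c a' b' =>
      simp only [lx, ly, Prod.mk.injEq] at h
      obtain ⟨h1, h2, -⟩ := h
      subst h1
      exact absurd h2.symm (D.fir m c)
    | jf m c o o' =>
      simp only [lx, ly, Prod.mk.injEq] at h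
      obtain ⟨h1, h2, h3⟩ := h
      subst h1; subst h2; subst h3
      exact D.c4 m c a o'
  | co i o o' =>
    cases r' with
    | ev j a' b' =>
      simp only [lx, ly, Prod.mk.injEq] at h
      obtain ⟨h1, h2, h3⟩ := h
      have h4 : i = j := by omega
      subst h4; subst h2; subst h3
      exact D.c5 i o b'
    | co j o1 o2 =>
      simp only [lx, ly, Prod.mk.injEq] at h
      obtain ⟨h1, -, h3⟩ := h
      subst h1
      exact absurd h3 (D.pp (i + 1))
    | ef m c a' b' =>
      simp only [lx, ly, Prod.mk.injEq] at h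
      obtain ⟨h1, h2, h3⟩ := h
      obtain ⟨n, rfl⟩ : ∃ n, m = n + 1 := by
        cases m with
        | zero => simp [lev] at h1
        | succ n => exact ⟨n, rfl⟩
      have e3 : lev (n + 3) = lev n + 1 + 1 := lev_add n
      have e4 : lev (n + 1 + 2) = lev n + 1 + 1 := e3
      have h4 : i = lev n + 1 := by omega
      subst h4; subst h2; subst h3
      have h5 := D.c7 n c o b'
      simp only [lx, ly, rl, e4]
      exact h5
    | jf m c o1 o2 =>
      simp only [lx, ly, Prod.mk.injEq] at h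
      obtain ⟨h1, -, h3⟩ := h
      have h4 : i = lev m := by omega
      subst h4
      exact absurd h3.symm (D.sec (m + 2) c (lev m + 1)
        (by rw [show m + 2 + 1 = m + 3 from rfl, lev_add]))
  | ef m c a b =>
    cases r' with
    | ev j a' b' =>
      simp only [lx, ly, Prod.mk.injEq] at h
      obtain ⟨h1, h2, -⟩ := h
      exact absurd h2 (D.sec m c j h1.symm)
    | co j o o' =>
      simp only [lx, ly, Prod.mk.injEq] at h
      obtain ⟨h1, h2, h3⟩ := h
      subst h1; subst h2; subst h3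
      exact D.c10 m c a o'
    | ef m' c' a' b' =>
      simp only [lx, ly, Prod.mk.injEq] at h
      obtain ⟨h1, h2, h3⟩ := h
      obtain ⟨h4, h5, h6⟩ := D.ov m' c' m c h2 h1
      subst h4; subst h3
      have h7 := D.c11 m' c' c a b b' h2 h5 h6
      simp only [lx, ly, rl]
      rw [← h6, ← h5, h2]
      exact h7
    | jf m' c' o1 o2 =>
      simp only [lx, ly, Prod.mk.injEq] at h
      have h1 := lev_even (m + 1)
      have h2 := lev_even m'
      omega
  | jf m c o o' =>
    cases r' with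
    | ev j a' b' =>
      simp only [lx, ly, Prod.mk.injEq] at h
      obtain ⟨h1, h2, h3⟩ := h
      have h4 : j = lev (m + 1) := by omega
      subst h4; subst h2; subst h3
      exact D.c13 m c o b'
    | co j o1 o2 =>
      simp only [lx, ly, Prod.mk.injEq] at h
      obtain ⟨h1, -, h3⟩ := h
      subst h1
      refine absurd ?_ (D.fir (m + 2) c)
      rw [h3, show m + 2 + 2 = (m + 1) + 3 from rfl, lev_add]
    | ef m' c' a' b' =>
      simp only [lx, ly, Prod.mk.injEq] at h
      have h1 := lev_even (m + 1)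
      have h2 := lev_even (m' + 2)
      omega
    | jf m' c' o1 o2 =>
      simp only [lx, ly, Prod.mk.injEq] at h
      obtain ⟨h1, h2, h3⟩ := h
      obtain ⟨h4, h5, h6⟩ := D.ov (m + 2) c (m' + 2) c' h3.symm
        (by rw [show m + 2 + 2 = (m + 1) + 3 from rfl, show m' + 2 + 1 = m' + 3 from rfl,
              lev_add, lev_add]; omega)
      have h8 : m' = m + 1 := by omega
      subst h8; subst h2
      have h7 := D.c16 m c c' o o' o2 h3.symm h5 h6
      have h9 : (D.piv (m + 1 + 2) c').1 = c := h6.symm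
      simp only [lx, ly, rl]
      rw [h9, ← h5]
      exact h7

end Dat

end Pool.Agent.TH12.Hopf
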