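import Mathlib

set_option autoImplicit false

/-! The diamond lemma for rewriting rules whose left sides are words of length two. -/

namespace Pool.Agent.TH12.Hopf

open MonoidAlgebra

/-- The free algebra, as the monoid algebra of the free monoid. -/
abbrev FA (k L : Type) [Field k] := MonoidAlgebra k (FreeMonoid L)

section Words

variable {k L : Type} [Field k]

/-- The basis element of a word. -/
noncomputable def wd (w : List L) : FA k L := MonoidAlgebra.single (FreeMonoid.ofList w) 1

lemma wd_mul (u v : List L) : (wd u * wd v : FA k L) = wd (u ++ v) := by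
  simp [wd, MonoidAlgebra.single_mul_single, FreeMonoid.ofList_append]

lemma wd_nil : (wd [] : FA k L) = 1 := rfl

lemma wd_ind {P : FA k L → Prop} (h0 : P 0) (hw : ∀ w, P (wd w))
    (ha : ∀ a b, P a → P b → P (a + b)) (hs : ∀ (c : k) a, P a → P (c • a)) (a : FA k L) : P a := by
  induction a using MonoidAlgebra.induction_on with
  | of m => exact hw (FreeMonoid.toList m)
  | add f g hf hg => exact ha f g hf hg
  | smul c f hf => exact hs c f hf

/-- The order on words: first by length, then by weight. -/
def lt (wt : L → ℕ) (w w' : List L) : Prop :=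
  w.length < w'.length ∨ (w.length = w'.length ∧ (w.map wt).sum < (w'.map wt).sum)

lemma lt_wf (wt : L → ℕ) : WellFounded (lt wt) := by
  have h : WellFounded (InvImage (Prod.Lex (fun a b : ℕ => a < b) (fun a b : ℕ => a < b))
      (fun w : List L => (w.length, (w.map wt).sum))) :=
    InvImage.wf _ (WellFounded.prod_lex Nat.lt_wfRel.wf Nat.lt_wfRel.wf)
  refine Subrelation.wf ?_ h
  intro a b hab
  rcases hab with hab | ⟨h1, h2⟩
  · exact Prod.Lex.left _ _ hab
  · change Prod.Lex _ _ (a.length, (a.map wt).sum) (b.length, (b.map wt).sum)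
    rw [h1]
    exact Prod.Lex.right _ h2

lemma lt_ctx {wt : L → ℕ} {w w' : List L} (u v : List L) (h : lt wt w w') :
    lt wt (u ++ w ++ v) (u ++ w' ++ v) := by
  rcases h with h | ⟨h1, h2⟩
  · left
    simp only [List.length_append]
    omega
  · right
    simp only [List.length_append, List.map_append, List.sum_append]
    omega

/-- The span of the words below a word. -/
noncomputable def Lo (wt : L → ℕ) (w : List L) : Submodule k (FA k L) :=
  Submodule.span k {f | ∃ w', lt wt w' w ∧ f = wd w'}

lemma wd_mem_Lo {wt : L → ℕ} {w w' : List L} (h : lt wt w' w) : (wd w' : FA k L) ∈ Lo wt w :=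
  Submodule.subset_span ⟨w', h, rfl⟩

lemma Lo_supp {wt : L → ℕ} {w : List L} {f : FA k L} (hf : f ∈ Lo wt w) :
    ∀ m, f.coeff m ≠ 0 → lt wt (FreeMonoid.toList m) w := by
  classical
  induction hf using Submodule.span_induction with
  | mem x hx =>
    obtain ⟨w', h, rfl⟩ := hx
    intro m hm
    by_cases hmw : m = FreeMonoid.ofList w'
    · rw [hmw]; exact h
    · exfalso
      apply hm
      rw [wd, MonoidAlgebra.coeff_single, Finsupp.single_apply, if_neg (Ne.symm hmw)]
  | zero =>
    intro m hm
    exact absurd rfl hm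
  | add a b _ _ ha hb =>
    intro m hm
    by_cases h1 : a.coeff m = 0
    · by_cases h2 : b.coeff m = 0
      · exfalso
        apply hm
        rw [MonoidAlgebra.coeff_add, Finsupp.add_apply, h1, h2, add_zero]
      · exact hb m h2
    · exact ha m h1
  | smul c a _ ha =>
    intro m hm
    apply ha m
    intro h1
    apply hm
    rw [MonoidAlgebra.coeff_smul, Finsupp.smul_apply, h1, smul_zero]

end Words

/-- A rewriting system with left sides of length two. The element rel is the left side minus the
right side. -/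
structure RS (k L : Type) [Field k] where
  R : Type
  x : R → L
  y : R → L
  rel : R → FA k L
  wt : L → ℕ
  hrel : ∀ r, (wd [x r, y r] - rel r : FA k L) ∈ Lo wt [x r, y r]
  uniq : ∀ r r', x r = x r' → y r = y r' → r = r'

namespace RS

variable {k L : Type} [Field k] (S : RS k L)

/-- The span of the relations in context whose leading word is below a word. -/
noncomputable def K (w : List L) : Submodule k (FA k L) :=
  Submodule.span k {f | ∃ u r v, lt S.wt (u ++ [S.x r, S.y r] ++ v) w ∧ f = wd u * S.rel r * wd v}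

lemma mem_K {w u v : List L} {r : S.R} (h : lt S.wt (u ++ [S.x r, S.y r] ++ v) w) :
    wd u * S.rel r * wd v ∈ S.K w := Submodule.subset_span ⟨u, r, v, h, rfl⟩

lemma K_ctx {w : List L} {f : FA k L} (u v : List L) (hf : f ∈ S.K w) :
    wd u * f * wd v ∈ S.K (u ++ w ++ v) := by
  induction hf using Submodule.span_induction with
  | mem x hx =>
    obtain ⟨u', r, v', h, rfl⟩ := hx
    have e : (wd u * (wd u' * S.rel r * wd v') * wd v : FA k L) =
        wd (u ++ u') * S.rel r * wd (v' ++ v) := by
      rw [← wd_mul, ← wd_mul]; noncomm_ring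
    rw [e]
    apply S.mem_K
    have h2 := lt_ctx u v h
    simpa [List.append_assoc] using h2
  | zero => simp
  | add a b _ _ ha hb => rw [mul_add, add_mul]; exact Submodule.add_mem _ ha hb
  | smul c a _ ha => rw [mul_smul_comm, smul_mul_assoc]; exact Submodule.smul_mem _ _ ha

lemma relLo_mem (u v t : List L) (r : S.R) {w : List L} {f : FA k L} (hf : f ∈ Lo S.wt w) :
    wd u * S.rel r * wd t * f * wd v ∈ S.K (u ++ [S.x r, S.y r] ++ t ++ w ++ v) := by
  induction hf using Submodule.span_induction with
  | mem x hx =>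
    obtain ⟨w', h, rfl⟩ := hx
    have e : (wd u * S.rel r * wd t * wd w' * wd v : FA k L) =
        wd u * S.rel r * wd (t ++ w' ++ v) := by
      rw [← wd_mul, ← wd_mul]; noncomm_ring
    rw [e]
    apply S.mem_K
    have h2 := lt_ctx (u ++ [S.x r, S.y r] ++ t) v h
    simpa [List.append_assoc] using h2
  | zero => simp
  | add a b _ _ ha hb => rw [mul_add, add_mul]; exact Submodule.add_mem _ ha hb
  | smul c a _ ha => rw [mul_smul_comm, smul_mul_assoc]; exact Submodule.smul_mem _ _ ha

lemma Lorel_mem (u v t : List L) (r : S.R) {w : List L} {f : FA k L} (hf : f ∈ Lo S.wt w) :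
    wd u * f * wd t * S.rel r * wd v ∈ S.K (u ++ w ++ t ++ [S.x r, S.y r] ++ v) := by
  induction hf using Submodule.span_induction with
  | mem x hx =>
    obtain ⟨w', h, rfl⟩ := hx
    have e : (wd u * wd w' * wd t * S.rel r * wd v : FA k L) =
        wd (u ++ w' ++ t) * S.rel r * wd v := by
      rw [← wd_mul, ← wd_mul]
    rw [e]
    apply S.mem_K
    have h2 := lt_ctx u (t ++ [S.x r, S.y r] ++ v) h
    simpa [List.append_assoc] using h2
  | zero => simp
  | add a b _ _ ha hb =>
    rw [mul_add, add_mul, add_mul, add_mul]; exact Submodule.add_mem _ ha hb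
  | smul c a _ ha =>
    rw [mul_smul_comm, smul_mul_assoc, smul_mul_assoc, smul_mul_assoc]
    exact Submodule.smul_mem _ _ ha

/-- Occurrences of left sides. -/
def Occ (w : List L) (t : List L × S.R × List L) : Prop :=
  w = t.1 ++ [S.x t.2.1, S.y t.2.1] ++ t.2.2

open Classical in
/-- The normal form of a word. -/
noncomputable def N : List L → FA k L :=
  WellFounded.fix (lt_wf S.wt) (fun w rec =>
    if h : ∃ t, S.Occ w t then
      (wd h.choose.1 * (wd [S.x h.choose.2.1, S.y h.choose.2.1] - S.rel h.choose.2.1) *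
        wd h.choose.2.2 : FA k L).coeff.sum
          (fun m c => if hm : lt S.wt (FreeMonoid.toList m) w then c • rec _ hm else 0)
    else wd w)

/-- The linear extension of the normal form. -/
noncomputable def Nh : FA k L →ₗ[k] FA k L :=
  (Finsupp.linearCombination k (fun m : FreeMonoid L => S.N (FreeMonoid.toList m))) ∘ₗ
    (MonoidAlgebra.coeffLinearEquiv k).toLinearMap

lemma Nh_wd (w : List L) : S.Nh (wd w) = S.N w := by
  simp only [Nh, LinearMap.comp_apply, wd]
  change Finsupp.linearCombination k _ (Finsupp.single (FreeMonoid.ofList w) 1) = _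
  rw [Finsupp.linearCombination_single, one_smul]
  rfl

lemma N_irr {w : List L} (h : ¬ ∃ t, S.Occ w t) : S.N w = wd w := by
  rw [N, WellFounded.fix_eq, dif_neg h]

lemma N_red {w : List L} (h : ∃ t, S.Occ w t) : ∃ t, S.Occ w t ∧
    S.N w = S.Nh (wd t.1 * (wd [S.x t.2.1, S.y t.2.1] - S.rel t.2.1) * wd t.2.2) := by
  refine ⟨h.choose, h.choose_spec, ?_⟩
  rw [N, WellFounded.fix_eq, dif_pos h]
  have hs := h.choose_spec
  generalize h.choose = t at hs ⊢
  have hlo : (wd t.1 * (wd [S.x t.2.1, S.y t.2.1] - S.rel t.2.1) * wd t.2.2 : FA k L) ∈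
      Lo S.wt w := by
    have h1 := S.hrel t.2.1
    rw [hs]
    generalize (wd [S.x t.2.1, S.y t.2.1] - S.rel t.2.1 : FA k L) = f at h1
    induction h1 using Submodule.span_induction with
    | mem x hx =>
      obtain ⟨w', h, rfl⟩ := hx
      rw [wd_mul, wd_mul]
      exact wd_mem_Lo (lt_ctx _ _ h)
    | zero => simp
    | add a b _ _ ha hb => rw [mul_add, add_mul]; exact Submodule.add_mem _ ha hb
    | smul c a _ ha => rw [mul_smul_comm, smul_mul_assoc]; exact Submodule.smul_mem _ _ ha
  have hsupp := Lo_supp hlo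
  generalize (wd t.1 * (wd [S.x t.2.1, S.y t.2.1] - S.rel t.2.1) * wd t.2.2 : FA k L) = f
    at hsupp
  simp only [Nh, LinearMap.comp_apply]
  change _ = Finsupp.linearCombination k _ f.coeff
  rw [Finsupp.linearCombination_apply]
  refine Finset.sum_congr rfl fun m hm => ?_
  beta_reduce
  rw [dif_pos (hsupp m (Finsupp.mem_support_iff.mp hm))]
  rfl

/-- Resolvability of the overlaps. -/
def Res : Prop := ∀ r r', S.y r = S.x r' →
  S.rel r * wd [S.y r'] - wd [S.x r] * S.rel r' ∈ S.K [S.x r, S.y r, S.y r']

lemma key_le (hS : S.Res) (u v u0 v0 : List L) (r r0 : S.R)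
    (h : u ++ [S.x r, S.y r] ++ v = u0 ++ [S.x r0, S.y r0] ++ v0) (hl : u.length ≤ u0.length) :
    (wd u * S.rel r * wd v - wd u0 * S.rel r0 * wd v0 : FA k L) ∈
      S.K (u ++ [S.x r, S.y r] ++ v) := by
  have hp : ∃ t, u0 = u ++ t := by
    refine ⟨u0.drop u.length, ?_⟩
    have h1 := congrArg (List.take u.length) h
    rw [List.append_assoc, List.append_assoc, List.take_append_of_le_length hl,
      List.take_left'] at h1
    · conv_lhs => rw [← List.take_append_drop u.length u0]
      rw [← h1]
    · rfl
  obtain ⟨t, rfl⟩ := hp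
  have h2 : [S.x r, S.y r] ++ v = t ++ [S.x r0, S.y r0] ++ v0 := by
    apply List.append_cancel_left (as := u)
    simpa [List.append_assoc] using h
  match t, h2 with
  | [], h2 =>
    simp only [List.cons_append, List.nil_append, List.cons.injEq] at h2
    obtain ⟨h3, h4, h5⟩ := h2
    have h6 := S.uniq r r0 h3 h4
    subst h6
    subst h5
    simp
  | [a], h2 =>
    simp only [List.cons_append, List.nil_append, List.cons.injEq] at h2
    obtain ⟨h3, h4, h5⟩ := h2
    subst h3
    subst h5
    have h6 := S.K_ctx u v0 (hS r r0 h4)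
    have e : (wd u * S.rel r * wd (S.y r0 :: v0) - wd (u ++ [S.x r]) * S.rel r0 * wd v0 : FA k L) =
        wd u * (S.rel r * wd [S.y r0] - wd [S.x r] * S.rel r0) * wd v0 := by
      rw [← wd_mul, show S.y r0 :: v0 = [S.y r0] ++ v0 from rfl, ← wd_mul]
      noncomm_ring
    rw [e]
    simpa [List.append_assoc] using h6
  | a :: b :: t', h2 =>
    simp only [List.cons_append, List.nil_append, List.cons.injEq] at h2
    obtain ⟨h3, h4, h5⟩ := h2
    subst h3
    subst h4
    subst h5
    have h6 := S.relLo_mem u v0 t' r (S.hrel r0)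
    have h7 := S.Lorel_mem u v0 t' r0 (S.hrel r)
    have e : (wd u * S.rel r * wd (t' ++ [S.x r0, S.y r0] ++ v0) -
        wd (u ++ S.x r :: S.y r :: t') * S.rel r0 * wd v0 : FA k L) =
        wd u * S.rel r * wd t' * (wd [S.x r0, S.y r0] - S.rel r0) * wd v0 -
        wd u * (wd [S.x r, S.y r] - S.rel r) * wd t' * S.rel r0 * wd v0 := by
      rw [← wd_mul, ← wd_mul, ← wd_mul,
        show S.x r :: S.y r :: t' = [S.x r, S.y r] ++ t' from rfl, ← wd_mul]
      noncomm_ring
    rw [e]
    exact Submodule.sub_mem _ (by simpa [List.append_assoc] using h6)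
      (by simpa [List.append_assoc] using h7)

lemma key (hS : S.Res) (u v u0 v0 : List L) (r r0 : S.R)
    (h : u ++ [S.x r, S.y r] ++ v = u0 ++ [S.x r0, S.y r0] ++ v0) :
    (wd u * S.rel r * wd v - wd u0 * S.rel r0 * wd v0 : FA k L) ∈
      S.K (u ++ [S.x r, S.y r] ++ v) := by
  rcases le_total u.length u0.length with hl | hl
  · exact S.key_le hS u v u0 v0 r r0 h hl
  · have h1 := S.key_le hS u0 v0 u v r0 r h.symm hl
    rw [h]
    have h2 := Submodule.neg_mem _ h1
    rwa [neg_sub] at h2

theorem Nh_rel (hS : S.Res) (w : List L) : ∀ u r v, w = u ++ [S.x r, S.y r] ++ v →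
    S.Nh (wd u * S.rel r * wd v) = 0 := by
  induction w using (lt_wf S.wt).induction with
  | _ w ih =>
    intro u r v hw
    have hK : ∀ f ∈ S.K w, S.Nh f = 0 := by
      intro f hf
      induction hf using Submodule.span_induction with
      | mem x hx =>
        obtain ⟨u', r', v', h, rfl⟩ := hx
        exact ih _ h u' r' v' rfl
      | zero => simp
      | add a b _ _ ha hb => rw [map_add, ha, hb, add_zero]
      | smul c a _ ha => rw [map_smul, ha, smul_zero]
    obtain ⟨t, ht, ht2⟩ := S.N_red (w := w) ⟨(u, r, v), hw⟩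
    have h1 : S.Nh (wd t.1 * S.rel t.2.1 * wd t.2.2) = 0 := by
      rw [← S.Nh_wd, ← sub_eq_zero, ← map_sub] at ht2
      rw [← ht2]
      congr 1
      have : (wd w : FA k L) = wd t.1 * wd [S.x t.2.1, S.y t.2.1] * wd t.2.2 := by
        rw [wd_mul, wd_mul]
        exact congrArg wd ht
      rw [this]
      noncomm_ring
    have h2 := hK _ (by
      have := S.key hS u v t.1 t.2.2 r t.2.1 (by rw [← hw]; exact ht)
      rwa [← hw] at this)
    rw [map_sub, h1, sub_zero] at h2
    exact h2

/-- The left ideal of the relations. -/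
noncomputable def J : Submodule (FA k L) (FA k L) :=
  Submodule.span (FA k L) {f | ∃ r v, f = S.rel r * wd v}

lemma Nh_J (hS : S.Res) {f : FA k L} (hf : f ∈ S.J) : S.Nh f = 0 := by
  have h : ∀ u : List L, S.Nh (wd u * f) = 0 := by
    induction hf using Submodule.span_induction with
    | mem x hx =>
      obtain ⟨r, v, rfl⟩ := hx
      intro u
      rw [← mul_assoc]
      exact S.Nh_rel hS _ u r v rfl
    | zero => simp
    | add a b _ _ ha hb => intro u; rw [mul_add, map_add, ha, hb, add_zero]
    | smul c a _ ha =>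
      intro u
      rw [smul_eq_mul, ← mul_assoc]
      induction c using wd_ind with
      | h0 => simp
      | hw w => rw [wd_mul]; exact ha _
      | ha b c hb hc => rw [mul_add, add_mul, map_add, hb, hc, add_zero]
      | hs s b hb => rw [mul_smul_comm, smul_mul_assoc, map_smul, hb, smul_zero]
  have h1 := h []
  rwa [wd_nil, one_mul] at h1

lemma rel_mul_mem (r : S.R) (a : FA k L) : S.rel r * a ∈ S.J := by
  induction a using wd_ind with
  | h0 => simp
  | hw w => exact Submodule.subset_span ⟨r, w, rfl⟩
  | ha b c hb hc => rw [mul_add]; exact Submodule.add_mem _ hb hc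
  | hs s b hb =>
    rw [mul_smul_comm]
    have : s • (S.rel r * b) = (algebraMap k (FA k L) s) • (S.rel r * b) := by
      rw [Algebra.smul_def, smul_eq_mul]
    rw [this]
    exact Submodule.smul_mem _ _ hb

/-- The representation on the quotient by the left ideal. -/
noncomputable def rho : FA k L →ₐ[k] Module.End k (FA k L ⧸ S.J) :=
  Algebra.lsmul k k (FA k L ⧸ S.J)

lemma rho_rel (r : S.R) : S.rho (S.rel r) = 0 := by
  apply LinearMap.ext
  intro q
  obtain ⟨a, rfl⟩ := Submodule.Quotient.mk_surjective _ q
  change S.rel r • (Submodule.Quotient.mk a : FA k L ⧸ S.J) = 0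
  rw [← Submodule.Quotient.mk_smul, Submodule.Quotient.mk_eq_zero, smul_eq_mul]
  exact S.rel_mul_mem r a

theorem rho_ne_zero (hS : S.Res) {f : FA k L} (hf : S.Nh f ≠ 0) : S.rho f ≠ 0 := by
  intro h
  apply hf
  apply S.Nh_J hS
  have h1 := LinearMap.congr_fun h (Submodule.Quotient.mk 1)
  change f • (Submodule.Quotient.mk 1 : FA k L ⧸ S.J) = 0 at h1
  rwa [← Submodule.Quotient.mk_smul, Submodule.Quotient.mk_eq_zero, smul_eq_mul, mul_one] at h1

end RS

end Pool.Agent.TH12.Hopf
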