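import Pool.Agent.TH12.Hopf.Conf
import Pool.Agent.TH12.Hopf.HopfAlg

set_option autoImplicit false

/-! An explicit trilinear form in twelve variables with 33 terms. -/

namespace Pool.Agent.TH12.Hopf

/-- The terms of the form. -/
def terms : List (Fin 12 × Fin 12 × Fin 12) :=
  [(0,4,5), (0,6,2), (0,8,6), (0,10,7), (1,2,4), (1,6,10), (1,8,9), (2,3,7), (2,5,4),
   (2,6,11), (3,0,7), (3,4,1), (3,5,8), (3,6,3), (4,2,8), (5,1,5), (5,4,2), (5,8,3), (6,0,5),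
   (6,1,0), (6,5,2), (6,7,3), (6,11,1), (7,3,8), (8,0,0), (8,2,11), (8,3,2), (8,9,1),
   (8,10,3), (9,2,7), (9,6,0), (10,1,4), (11,1,7)]

/-- The support of the form. -/
def om (a b c : Fin 12) : Bool := terms.contains (a, b, c)

/-- The support of the rotated forms. -/
def tb (r : ℕ) (u v w : Fin 12) : Bool :=
  if r = 0 then om u v w else if r = 1 then om v w u else om w u v

/-- The pivots. -/
def pv (r : ℕ) (c : Fin 12) : Fin 12 × Fin 12 :=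
  if r = 0 then
    ![(9, 6), (3, 4), (0, 6), (3, 6), (2, 5), (0, 4), (0, 8), (0, 10), (3, 5), (1, 8), (1, 6),
      (2, 6)] c
  else if r = 1 then
    ![(0, 8), (0, 6), (11, 8), (2, 8), (2, 5), (2, 6), (0, 9), (3, 6), (3, 5), (1, 8), (3, 8),
      (1, 6)] c
  else
    ![(10, 7), (2, 4), (3, 7), (0, 7), (2, 8), (1, 5), (0, 5), (3, 8), (2, 11), (2, 7), (1, 4),
      (1, 7)] c

/-- Slopes of the weights. -/
def Av : Fin 12 → ℕ := ![60, 30, 60, 60, 0, 30, 0, 0, 0, 60, 60, 60]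

/-- Constant terms of the weights. -/
def Bv : Fin 12 → ℕ := ![408, 205, 406, 407, 10, 212, 4, 10, 0, 411, 410, 412]

/-- The weights. -/
def Uv (i : ℕ) (c : Fin 12) : ℕ :=
  if i % 2 = 0 then Av c * (i / 2) + Bv c
  else if c = 0 then 100 else if c = 4 then 60 * (i / 2) + 499 else 0

/-- Pivots of evaluation and coevaluation. -/
def pp' (i : ℕ) : Fin 12 := if i % 2 = 0 then 4 else 0

lemma Uv_lev (n : ℕ) (c : Fin 12) : Uv (lev n) c = Av c * (n / 3) + Bv c := by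
  unfold Uv lev
  rw [if_pos (by omega), Nat.mul_div_cancel_left _ (by norm_num)]

lemma tb_piv : ∀ r : Fin 3, ∀ c : Fin 12, tb r (pv r c).1 (pv r c).2 c = true := by
  decide +kernel

lemma dom0 : ∀ c : Fin 12, ∀ u v : Fin 12, tb 0 u v c = true → (u, v) ≠ pv 0 c →
    Av u + Av v ≤ Av (pv 0 c).1 + Av (pv 0 c).2 ∧
    Bv u + Bv v < Bv (pv 0 c).1 + Bv (pv 0 c).2 := by
  decide +kernel

lemma dom1 : ∀ c : Fin 12, ∀ u v : Fin 12, tb 1 u v c = true → (u, v) ≠ pv 1 c →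
    Av u + Av v ≤ Av (pv 1 c).1 + Av (pv 1 c).2 ∧
    Av u + Bv u + Bv v < Av (pv 1 c).1 + Bv (pv 1 c).1 + Bv (pv 1 c).2 := by
  decide +kernel

lemma dom2 : ∀ c : Fin 12, ∀ u v : Fin 12, tb 2 u v c = true → (u, v) ≠ pv 2 c →
    Av u + Av v ≤ Av (pv 2 c).1 + Av (pv 2 c).2 ∧
    Bv u + Bv v < Bv (pv 2 c).1 + Bv (pv 2 c).2 := by
  decide +kernel

lemma fir_t : ∀ r : Fin 3, ∀ c : Fin 12, (pv r c).1 ≠ 4 := by
  decide +kernel

lemma sec_t : ∀ r : Fin 3, ∀ c : Fin 12, (pv r c).2 ≠ 0 := by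
  decide +kernel

lemma inj_t : ∀ r r' : Fin 3, ∀ c c' : Fin 12, pv r c = pv r' c' →
    (r = r' ∧ c = c') ∨ (r = 1 ∧ r' ≠ 1) ∨ (r ≠ 1 ∧ r' = 1) := by
  decide +kernel

lemma ov_t : ∀ r r' : Fin 3, ∀ c c' : Fin 12, (pv r' c').2 = (pv r c).1 →
    r' = r + 1 ∧ c' = (pv r c).2 ∧ c = (pv r' c').1 := by
  decide +kernel

lemma sp0 : ∀ c c' : Fin 12, (pv 1 c').2 = (pv 0 c).1 → ∀ u v w : Fin 12, tb 1 u v w = true →
    ¬ (u = c ∧ v = (pv 0 c).1 ∧ w = c') →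
    Av u + Av v + Av w ≤ Av c + Av (pv 0 c).1 + Av c' ∧
    Av u + Bv u + Bv v + Bv w < Av c + Bv c + Bv (pv 0 c).1 + Bv c' := by
  decide +kernel

lemma sp1 : ∀ c c' : Fin 12, (pv 2 c').2 = (pv 1 c).1 → ∀ u v w : Fin 12, tb 2 u v w = true →
    ¬ (u = c ∧ v = (pv 1 c).1 ∧ w = c') →
    Av u + Av v + Av w ≤ Av c + Av (pv 1 c).1 + Av c' ∧
    Av u + Bv u + Av v + Bv v + Bv w < Av c + Bv c + Av (pv 1 c).1 + Bv (pv 1 c).1 + Bv c' := by
  decide +kernel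

lemma sp2 : ∀ c c' : Fin 12, (pv 0 c').2 = (pv 2 c).1 → ∀ u v w : Fin 12, tb 0 u v w = true →
    ¬ (u = c ∧ v = (pv 2 c).1 ∧ w = c') →
    Av u + Av v + Av w ≤ Av c + Av (pv 2 c).1 + Av c' ∧
    Bv u + Bv v + Bv w < Bv c + Bv (pv 2 c).1 + Bv c' := by
  decide +kernel

lemma ABbd : ∀ c : Fin 12, Av c ≤ 60 ∧ Bv c ≤ 412 := by
  decide +kernel

end Pool.Agent.TH12.Hopf
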