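import Pool.Agent.TH12.Hopf.Example

set_option autoImplicit false

/-! Assembly: the data of the example, finite generation, a non-zero element killed by the
antipode. -/

namespace Pool.Agent.TH12.Hopf

section

variable (k : Type) [Field k]

/-- The rotated forms. -/
def Tv (m : ℕ) (u v w : Fin 12) : k := if tb (m % 3) u v w = true then 1 else 0

variable {k}

lemma Tv_ne {m : ℕ} {u v w : Fin 12} (h : Tv k m u v w ≠ 0) : tb (m % 3) u v w = true := by
  by_contra h1
  exact h (if_neg h1)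

lemma Tv_rot (m : ℕ) (u v w : Fin 12) : Tv k (m + 1) u v w = Tv k m v w u := by
  unfold Tv tb
  have h : m % 3 = 0 ∨ m % 3 = 1 ∨ m % 3 = 2 := by omega
  rcases h with h | h | h
  · have h2 : (m + 1) % 3 = 1 := by omega
    simp [h, h2]
  · have h2 : (m + 1) % 3 = 2 := by omega
    simp [h, h2]
  · have h2 : (m + 1) % 3 = 0 := by omega
    simp [h, h2]

lemma Tv_piv (m : ℕ) (c : Fin 12) : Tv k m (pv (m % 3) c).1 (pv (m % 3) c).2 c = 1 :=
  if_pos (tb_piv ⟨m % 3, Nat.mod_lt _ (by norm_num)⟩ c)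

lemma three (m : ℕ) : ∃ h, m = 3 * h ∨ m = 3 * h + 1 ∨ m = 3 * h + 2 := ⟨m / 3, by omega⟩

lemma Dv_dom (m : ℕ) (c : Fin 12) (q : Fin 12 × Fin 12) (hT : Tv k m q.1 q.2 c ≠ 0)
    (hq : q ≠ pv (m % 3) c) : Uv (lev (m + 2)) q.1 + Uv (lev (m + 1)) q.2 <
      Uv (lev (m + 2)) (pv (m % 3) c).1 + Uv (lev (m + 1)) (pv (m % 3) c).2 := by
  have h1 := Tv_ne hT
  simp only [Uv_lev]
  obtain ⟨h, rfl | rfl | rfl⟩ := three m
  · have e0 : 3 * h % 3 = 0 := by omega
    have e1 : (3 * h + 2) / 3 = h := by omega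
    have e2 : (3 * h + 1) / 3 = h := by omega
    rw [e0] at h1 hq
    rw [e0, e1, e2]
    obtain ⟨hA, hB⟩ := dom0 c q.1 q.2 h1 hq
    have := Nat.mul_le_mul_right h hA
    rw [add_mul, add_mul] at this
    omega
  · have e0 : (3 * h + 1) % 3 = 1 := by omega
    have e1 : (3 * h + 1 + 2) / 3 = h + 1 := by omega
    have e2 : (3 * h + 1 + 1) / 3 = h := by omega
    rw [e0] at h1 hq
    rw [e0, e1, e2]
    obtain ⟨hA, hB⟩ := dom1 c q.1 q.2 h1 hq
    have := Nat.mul_le_mul_right h hA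
    rw [add_mul, add_mul] at this
    rw [mul_add, mul_add, mul_one, mul_one]
    omega
  · have e0 : (3 * h + 2) % 3 = 2 := by omega
    have e1 : (3 * h + 2 + 2) / 3 = h + 1 := by omega
    have e2 : (3 * h + 2 + 1) / 3 = h + 1 := by omega
    rw [e0] at h1 hq
    rw [e0, e1, e2]
    obtain ⟨hA, hB⟩ := dom2 c q.1 q.2 h1 hq
    have := Nat.mul_le_mul_right (h + 1) hA
    rw [add_mul, add_mul] at this
    omega

lemma Dv_ev (i : ℕ) (o : Fin 12) (ho : o ≠ pp' i) :
    Uv (i + 1) o + Uv i o < Uv (i + 1) (pp' i) + Uv i (pp' i) := by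
  obtain ⟨hA, hB⟩ := ABbd o
  have hA4 : Av 4 = 0 := rfl
  have hB4 : Bv 4 = 10 := rfl
  have hA0 : Av 0 = 60 := rfl
  have hB0 : Bv 0 = 408 := rfl
  have h40 : ¬ ((4 : Fin 12) = 0) := by decide
  obtain ⟨h, rfl | rfl⟩ : ∃ h, i = 2 * h ∨ i = 2 * h + 1 := ⟨i / 2, by omega⟩
  · have e0 : 2 * h % 2 = 0 := by omega
    have e1 : (2 * h + 1) % 2 = 1 := by omega
    have e2 : (2 * h + 1) / 2 = h := by omega
    have e3 : 2 * h / 2 = h := by omega
    have hm := Nat.mul_le_mul_right h hA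
    simp only [pp', e0, if_true] at ho ⊢
    simp only [Uv, e0, e1, e2, e3, if_true, one_ne_zero, if_false, hA4, hB4, h40]
    by_cases h0 : o = 0
    · subst h0
      simp only [if_true, hA0, hB0]
      omega
    · simp only [h0, ho, if_false]
      omega
  · have e0 : (2 * h + 1) % 2 = 1 := by omega
    have e1 : (2 * h + 1 + 1) % 2 = 0 := by omega
    have e2 : (2 * h + 1 + 1) / 2 = h + 1 := by omega
    have e3 : (2 * h + 1) / 2 = h := by omega
    have hm := Nat.mul_le_mul_right (h + 1) hA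
    simp only [pp', e0, one_ne_zero, if_false] at ho ⊢
    simp only [Uv, e0, e1, e2, e3, if_true, one_ne_zero, if_false, hA0, hB0, ho]
    by_cases h4 : o = 4
    · subst h4
      simp only [if_true, hA4, hB4]
      omega
    · simp only [h4, if_false]
      omega

lemma Dv_ov (m : ℕ) (c : Fin 12) (m' : ℕ) (c' : Fin 12)
    (h : (pv (m' % 3) c').2 = (pv (m % 3) c).1) (hl : lev (m' + 1) = lev (m + 2)) :
    m' = m + 1 ∧ c' = (pv (m % 3) c).2 ∧ c = (pv (m' % 3) c').1 := by
  obtain ⟨h1, h2, h3⟩ := ov_t ⟨m % 3, Nat.mod_lt _ (by norm_num)⟩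
    ⟨m' % 3, Nat.mod_lt _ (by norm_num)⟩ c c' h
  refine ⟨?_, h2, h3⟩
  have h4 : m' % 3 = (m % 3 + 1) % 3 := by
    have := congrArg Fin.val h1
    simpa [Fin.val_add] using this
  unfold lev at hl
  omega

lemma Dv_inj (m : ℕ) (c : Fin 12) (m' : ℕ) (c' : Fin 12)
    (h : pv (m % 3) c = pv (m' % 3) c') (hl : lev (m + 2) = lev (m' + 2))
    (hl' : lev (m + 1) = lev (m' + 1)) : m = m' ∧ c = c' := by
  have h0 := inj_t ⟨m % 3, Nat.mod_lt _ (by norm_num)⟩
    ⟨m' % 3, Nat.mod_lt _ (by norm_num)⟩ c c' h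
  simp only [Fin.ext_iff, ne_eq, Fin.val_one] at h0
  unfold lev at hl hl'
  have h1 : (m % 3 = m' % 3 ∧ (c : ℕ) = c') ∨ (m % 3 = 1 ∧ ¬ m' % 3 = 1) ∨
      (¬ m % 3 = 1 ∧ m' % 3 = 1) := h0
  have h2 : m = m' ∧ (c : ℕ) = c' := by omega
  exact ⟨h2.1, Fin.ext h2.2⟩

lemma Dv_sp (m : ℕ) (c c' : Fin 12) (hs : (pv ((m + 1) % 3) c').2 = (pv (m % 3) c).1)
    (u v w : Fin 12) (hT : Tv k (m + 1) u v w ≠ 0)
    (hn : ¬ (u = c ∧ v = (pv (m % 3) c).1 ∧ w = c')) :
    Uv (lev (m + 3)) u + Uv (lev (m + 2)) v + Uv (lev (m + 1)) w <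
      Uv (lev (m + 3)) c + Uv (lev (m + 2)) (pv (m % 3) c).1 + Uv (lev (m + 1)) c' := by
  have h1 := Tv_ne hT
  simp only [Uv_lev]
  obtain ⟨h, rfl | rfl | rfl⟩ := three m
  · have e0 : 3 * h % 3 = 0 := by omega
    have e0' : (3 * h + 1) % 3 = 1 := by omega
    have e1 : (3 * h + 3) / 3 = h + 1 := by omega
    have e2 : (3 * h + 2) / 3 = h := by omega
    have e3 : (3 * h + 1) / 3 = h := by omega
    rw [e0, e0'] at hs
    rw [e0'] at h1
    rw [e0] at hn
    rw [e0, e1, e2, e3]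
    obtain ⟨hA, hB⟩ := sp0 c c' hs u v w h1 hn
    have := Nat.mul_le_mul_right h hA
    rw [add_mul, add_mul, add_mul, add_mul] at this
    rw [mul_add, mul_add, mul_one, mul_one]
    omega
  · have e0 : (3 * h + 1) % 3 = 1 := by omega
    have e0' : (3 * h + 1 + 1) % 3 = 2 := by omega
    have e1 : (3 * h + 1 + 3) / 3 = h + 1 := by omega
    have e2 : (3 * h + 1 + 2) / 3 = h + 1 := by omega
    have e3 : (3 * h + 1 + 1) / 3 = h := by omega
    rw [e0, e0'] at hs
    rw [e0'] at h1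
    rw [e0] at hn
    rw [e0, e1, e2, e3]
    obtain ⟨hA, hB⟩ := sp1 c c' hs u v w h1 hn
    have := Nat.mul_le_mul_right h hA
    rw [add_mul, add_mul, add_mul, add_mul] at this
    simp only [mul_add, mul_one]
    omega
  · have e0 : (3 * h + 2) % 3 = 2 := by omega
    have e0' : (3 * h + 2 + 1) % 3 = 0 := by omega
    have e1 : (3 * h + 2 + 3) / 3 = h + 1 := by omega
    have e2 : (3 * h + 2 + 2) / 3 = h + 1 := by omega
    have e3 : (3 * h + 2 + 1) / 3 = h + 1 := by omega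
    rw [e0, e0'] at hs
    rw [e0'] at h1
    rw [e0] at hn
    rw [e0, e1, e2, e3]
    obtain ⟨hA, hB⟩ := sp2 c c' hs u v w h1 hn
    have := Nat.mul_le_mul_right (h + 1) hA
    rw [add_mul, add_mul, add_mul, add_mul] at this
    omega

variable (k)

/-- The data of the example. -/
def Dv : Dat k (Fin 12) where
  T := Tv k
  rot := Tv_rot
  piv := fun m c => pv (m % 3) c
  U := Uv
  p := pp'
  Tpiv := Tv_piv
  dom := Dv_dom
  evdom := Dv_ev
  pp := by
    intro i
    unfold pp'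
    have h : i % 2 = 0 ∨ i % 2 = 1 := by omega
    rcases h with h | h
    · rw [if_pos h, if_neg (by omega)]; decide
    · rw [if_neg (by omega), if_pos (by omega)]; decide
  fir := by
    intro m c
    have h := fir_t ⟨m % 3, Nat.mod_lt _ (by norm_num)⟩ c
    unfold pp'
    rw [if_pos (by unfold lev; omega)]
    exact h
  sec := by
    intro m c j hj
    have h := sec_t ⟨m % 3, Nat.mod_lt _ (by norm_num)⟩ c
    unfold pp'
    rw [if_neg (by unfold lev at hj; omega)]
    exact h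
  inj := Dv_inj
  ov := Dv_ov
  sp := Dv_sp

/-- The form of the example. -/
def Fv : Frm k (Fin 12) := ⟨Tv k, Tv_rot⟩

/-- The Hopf algebra of the example. -/
abbrev Hv : Type := H (Tv k)

variable {k}

/-- Every index is isolated by a pair. -/
lemma gen_t : ∀ l : Fin 12, tb 0 (pv 0 l).1 (pv 0 l).2 l = true ∧
    ∀ l' : Fin 12, l' ≠ l → tb 0 (pv 0 l).1 (pv 0 l).2 l' = false := by
  decide +kernel

lemma sum_gen {M : Type} [AddCommGroup M] [Module k M] (m : ℕ) (hm : m % 3 = 0) (l : Fin 12)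
    (f : Fin 12 → M) :
    ∑ l', Tv k m (pv 0 l).1 (pv 0 l).2 l' • f l' = f l := by
  rw [Finset.sum_eq_single l]
  · rw [Tv, if_pos (by rw [hm]; exact (gen_t l).1), one_smul]
  · intro l' _ hl
    rw [Tv, if_neg (by rw [hm, (gen_t l).2 l' hl]; decide), zero_smul]
  · simp

/-- The subalgebra generated by the first layer. -/
noncomputable def Sub0 : Subalgebra k (Hv k) :=
  Algebra.adjoin k (Set.range (fun p : Fin 12 × Fin 12 => G (Tv k) 0 p.1 p.2))

lemma G_mem (h : ℕ) : (∀ o a, G (Tv k) (2 * h) o a ∈ Sub0 (k := k)) ∧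
    (∀ o a, G (Tv k) (2 * h + 1) o a ∈ Sub0 (k := k)) := by
  have step1 : ∀ h, (∀ o a, G (Tv k) (2 * h) o a ∈ Sub0 (k := k)) →
      ∀ o a, G (Tv k) (2 * h + 1) o a ∈ Sub0 (k := k) := by
    intro h hh c l
    have h1 := G_E (Tv k) (3 * h) c (pv 0 l).1 (pv 0 l).2
    rw [sum_gen (3 * h) (by omega) l (fun l' => G (Tv k) (lev (3 * h) + 1) c l')] at h1
    rw [show lev (3 * h + 2) = 2 * h by unfold lev; omega,
      show lev (3 * h + 1) = 2 * h by unfold lev; omega,
      show lev (3 * h) = 2 * h by unfold lev; omega] at h1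
    rw [← h1]
    refine Subalgebra.sum_mem _ fun q _ => Subalgebra.smul_mem _ ?_ _
    exact Subalgebra.mul_mem _ (hh _ _) (hh _ _)
  have step2 : ∀ h, (∀ o a, G (Tv k) (2 * h + 1) o a ∈ Sub0 (k := k)) →
      ∀ o a, G (Tv k) (2 * (h + 1)) o a ∈ Sub0 (k := k) := by
    intro h hh l c
    have h1 := G_I (Tv k) (3 * h + 1) c (pv 0 l).2 (pv 0 l).1
    rw [sum_gen (3 * h + 1 + 2) (by omega) l (fun l' => G (Tv k) (lev (3 * h + 1 + 2)) l' c)] at h1
    rw [show lev (3 * h + 1 + 2) = 2 * (h + 1) by unfold lev; omega,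
      show lev (3 * h + 1 + 1) = 2 * h by unfold lev; omega,
      show lev (3 * h + 1) = 2 * h by unfold lev; omega] at h1
    rw [← h1]
    refine Subalgebra.sum_mem _ fun q _ => Subalgebra.smul_mem _ ?_ _
    exact Subalgebra.mul_mem _ (hh _ _) (hh _ _)
  induction h with
  | zero =>
    have h0 : ∀ o a, G (Tv k) (2 * 0) o a ∈ Sub0 (k := k) := fun o a =>
      Algebra.subset_adjoin ⟨(o, a), rfl⟩
    exact ⟨h0, step1 0 h0⟩
  | succ h ih =>
    have h0 := step2 h ih.2
    exact ⟨h0, step1 _ h0⟩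

lemma G_mem' (i : ℕ) (o a : Fin 12) : G (Tv k) i o a ∈ Sub0 (k := k) := by
  obtain ⟨h, rfl | rfl⟩ : ∃ h, i = 2 * h ∨ i = 2 * h + 1 := ⟨i / 2, by omega⟩
  · exact (G_mem h).1 o a
  · exact (G_mem h).2 o a

/-- The Hopf algebra is generated by 144 elements. -/
theorem finiteType : Algebra.FiniteType k (Hv k) := by
  refine ⟨⟨(Set.finite_range (fun p : Fin 12 × Fin 12 => G (Tv k) 0 p.1 p.2)).toFinset, ?_⟩⟩
  rw [Set.Finite.coe_toFinset]
  change Sub0 (k := k) = ⊤
  rw [Algebra.eq_top_iff]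
  intro x
  induction x using indH with
  | h0 c => exact Subalgebra.algebraMap_mem _ c
  | hg i o a => exact G_mem' i o a
  | hm a b ha hb => exact Subalgebra.mul_mem _ ha hb
  | ha a b ha hb => exact Subalgebra.add_mem _ ha hb

/-- The element killed by the antipode. -/
noncomputable def cv : Hv k :=
  ∑ q : Fin 12 × Fin 12, Tv k 2 q.1 q.2 5 • (G (Tv k) 0 q.1 0 * G (Tv k) 0 q.2 1)

lemma no_01 : ∀ l : Fin 12, tb 2 0 1 l = false := by
  decide +kernel

theorem anti_cv : anti (Fv k) cv = 0 := by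
  have h1 := G_I (Tv k) 0 5 1 0
  have h2 : ∑ l, Tv k (0 + 2) 0 1 l • G (Tv k) (lev (0 + 2)) l 5 = 0 := by
    apply Finset.sum_eq_zero
    intro l _
    rw [Tv, if_neg (by rw [show (0 + 2) % 3 = 2 from rfl, no_01 l]; decide), zero_smul]
  rw [h2] at h1
  have key : anti (Fv k) (∑ q : Fin 12 × Fin 12, Tv k 2 q.1 q.2 5 •
      (G (Fv k).T 0 q.1 0 * G (Fv k).T 0 q.2 1)) = 0 := by
    rw [map_sum]
    refine Eq.trans ?_ h1
    refine Finset.sum_congr rfl fun q _ => ?_
    rw [map_smul, anti_mul, anti_G, anti_G]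
    rfl
  exact key

/-- The representation of the Hopf algebra. -/
noncomputable def repH : Hv k →ₐ[k] Module.End k (FA k (ℕ × Fin 12 × Fin 12) ⧸ (Dv k).sys.J) :=
  liftH (fun i o a => (Dv k).sys.rho (Dat.X k i o a))
    (fun i a b => by
      have h := (Dv k).sys.rho_rel (.ev i a b)
      rw [← map_evr]; exact h)
    (fun i a b => by
      have h := (Dv k).sys.rho_rel (.co i a b)
      rw [← map_cor]; exact h)
    (fun m c a b => by
      have h := (Dv k).sys.rho_rel (.ef m c a b)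
      rw [← map_Er]; exact h)
    (fun m c a b => by
      have h := (Dv k).sys.rho_rel (.jf m c a b)
      rw [← map_Ir]; exact h)

/-- The lift of the element to the free algebra. -/
noncomputable def cf : FA k (ℕ × Fin 12 × Fin 12) :=
  ∑ q : Fin 12 × Fin 12, Tv k 2 q.1 q.2 5 • wd [(0, q.1, 0), (0, q.2, 1)]

lemma repH_cv : repH (k := k) cv = (Dv k).sys.rho cf := by
  rw [cv, cf, map_sum, map_sum]
  refine Finset.sum_congr rfl fun q _ => ?_
  rw [map_smul, map_smul, map_mul, repH, liftH_G, liftH_G, ← map_mul, Dat.X_mul]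

lemma piv_avoid : ∀ u v : Fin 12, tb 2 u v 5 = true → ∀ c : Fin 12, pv 0 c ≠ (u, v) := by
  decide +kernel

lemma Nh_cf : (Dv k).sys.Nh cf = cf := by
  rw [cf, map_sum]
  refine Finset.sum_congr rfl fun q _ => ?_
  by_cases hT : Tv k 2 q.1 q.2 5 = 0
  · rw [hT, zero_smul, map_zero]
  · rw [map_smul, RS.Nh_wd, RS.N_irr]
    rintro ⟨⟨u, r, v⟩, h⟩
    change [((0 : ℕ), q.1, (0 : Fin 12)), (0, q.2, 1)] = u ++ [(Dv k).lx r, (Dv k).ly r] ++ v at h
    have hl := congrArg List.length h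
    simp only [List.length_append, List.length_cons, List.length_nil] at hl
    have hu : u = [] := List.length_eq_zero_iff.mp (by omega)
    have hv : v = [] := List.length_eq_zero_iff.mp (by omega)
    subst hu; subst hv
    simp only [List.nil_append, List.append_nil, List.cons.injEq, and_true] at h
    obtain ⟨h1, h2⟩ := h
    cases r with
    | ev i a b =>
      simp only [Dat.lx, Dat.ly, Prod.mk.injEq] at h1 h2
      omega
    | co i a b =>
      simp only [Dat.lx, Dat.ly, Prod.mk.injEq] at h1 h2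
      omega
    | ef m c a b =>
      simp only [Dat.lx, Dat.ly, Prod.mk.injEq] at h1 h2
      have h3 := h1.1
      unfold lev at h3
      have h4 : m = 0 := by omega
      subst h4
      exact piv_avoid q.1 q.2 (Tv_ne hT) c (Prod.ext h1.2.1.symm h2.2.1.symm)
    | jf m c a b =>
      simp only [Dat.lx, Dat.ly, Prod.mk.injEq] at h1 h2
      omega

lemma tb_155 : tb 2 1 5 5 = true := by decide +kernel

lemma coeff_sum {L ι : Type} [DecidableEq L] (s : Finset ι) (f : ι → k) (g : ι → List L)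
    (w : List L) : (∑ q ∈ s, f q • (wd (g q) : FA k L)).coeff (FreeMonoid.ofList w) =
      ∑ q ∈ s, f q * (if g q = w then 1 else 0) := by
  classical
  induction s using Finset.induction_on with
  | empty => simp
  | insert a s ha ih =>
    rw [Finset.sum_insert ha, Finset.sum_insert ha, MonoidAlgebra.coeff_add,
      Finsupp.add_apply, ih, MonoidAlgebra.coeff_smul, Finsupp.smul_apply, wd,
      MonoidAlgebra.coeff_single, Finsupp.single_apply, smul_eq_mul]
    congr 2
    by_cases hq : g a = w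
    · rw [if_pos hq, if_pos (by rw [hq])]
    · rw [if_neg hq, if_neg]
      intro h4
      exact hq h4

lemma cf_ne : cf (k := k) ≠ 0 := by
  intro h
  have h6 : Tv k 2 1 5 5 = 1 := if_pos tb_155
  have h1 : (cf (k := k)).coeff (FreeMonoid.ofList [(0, 1, 0), (0, 5, 1)]) = 0 := by
    rw [h]
    rfl
  rw [cf, coeff_sum] at h1
  rw [Finset.sum_eq_single ((1 : Fin 12), (5 : Fin 12))] at h1
  · rw [if_pos rfl, mul_one] at h1
    exact one_ne_zero (h6.symm.trans h1)
  · intro q _ hq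
    rw [if_neg, mul_zero]
    intro h5
    simp only [List.cons.injEq, Prod.mk.injEq, and_true, true_and] at h5
    exact hq (Prod.ext h5.1 h5.2)
  · intro h7
    exact absurd (Finset.mem_univ _) h7

theorem cv_ne : cv (k := k) ≠ 0 := by
  intro h
  have h1 := RS.rho_ne_zero (Dv k).sys (Dv k).res (f := cf) (by rw [Nh_cf]; exact cf_ne)
  apply h1
  rw [← repH_cv, h, map_zero]

end

end Pool.Agent.TH12.Hopf
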