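import Pool.Agent.TH12.Hopf.Diamond
import Pool.Agent.TH12.Hopf.Rel

set_option autoImplicit false

/-! The rewriting system of a form with pivots and weights, and its confluence. -/

namespace Pool.Agent.TH12.Hopf

/-- A trilinear form with pivots and weights. -/
structure Dat (k : Type) [Field k] (I : Type) where
  T : ℕ → I → I → I → k
  rot : ∀ m u v w, T (m + 1) u v w = T m v w u
  piv : ℕ → I → I × I
  U : ℕ → I → ℕ
  p : ℕ → I
  Tpiv : ∀ m c, T m (piv m c).1 (piv m c).2 c = 1
  dom : ∀ m c (q : I × I), T m q.1 q.2 c ≠ 0 → q ≠ piv m c →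
    U (lev (m + 2)) q.1 + U (lev (m + 1)) q.2 <
      U (lev (m + 2)) (piv m c).1 + U (lev (m + 1)) (piv m c).2
  evdom : ∀ i o, o ≠ p i → U (i + 1) o + U i o < U (i + 1) (p i) + U i (p i)
  pp : ∀ i, p i ≠ p (i + 1)
  fir : ∀ m c, (piv m c).1 ≠ p (lev (m + 2))
  sec : ∀ m c j, j + 1 = lev (m + 1) → (piv m c).2 ≠ p j
  inj : ∀ m c m' c', piv m c = piv m' c' → lev (m + 2) = lev (m' + 2) →
    lev (m + 1) = lev (m' + 1) → m = m' ∧ c = c'
  ov : ∀ m c m' c', (piv m' c').2 = (piv m c).1 → lev (m' + 1) = lev (m + 2) →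
    m' = m + 1 ∧ c' = (piv m c).2 ∧ c = (piv m' c').1
  sp : ∀ m c c', (piv (m + 1) c').2 = (piv m c).1 → ∀ u v w, T (m + 1) u v w ≠ 0 →
    ¬ (u = c ∧ v = (piv m c).1 ∧ w = c') →
    U (lev (m + 3)) u + U (lev (m + 2)) v + U (lev (m + 1)) w <
      U (lev (m + 3)) c + U (lev (m + 2)) (piv m c).1 + U (lev (m + 1)) c'

/-- The rules. -/
inductive Rl (I : Type) : Type
  | ev (i : ℕ) (a b : I)
  | co (i : ℕ) (o o' : I)
  | ef (m : ℕ) (c a b : I)
  | jf (m : ℕ) (c o o' : I)

section lin

variable {k M ι κ : Type} [Field k] [AddCommGroup M] [Module k M] [Fintype ι] [DecidableEq ι]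
  [Fintype κ] [DecidableEq κ]

lemma sub_sum_mem (K : Submodule k M) (f : ι → M) (i0 : ι) (h : ∀ i, i ≠ i0 → f i ∈ K) :
    f i0 - ∑ i, f i ∈ K := by
  rw [← Finset.add_sum_erase _ _ (Finset.mem_univ i0), sub_add_eq_sub_sub, sub_self, zero_sub]
  apply Submodule.neg_mem
  apply Submodule.sum_mem
  intro i hi
  exact h i (Finset.ne_of_mem_erase hi)

lemma diff_mem (K : Submodule k M) (f : ι → M) (g : κ → M) (i0 : ι) (j0 : κ)
    (hf : ∀ i, i ≠ i0 → f i ∈ K) (hg : ∀ j, j ≠ j0 → g j ∈ K) (hh : ∑ i, f i - ∑ j, g j ∈ K) :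
    f i0 - g j0 ∈ K := by
  have h1 := sub_sum_mem K f i0 hf
  have h2 := sub_sum_mem K g j0 hg
  have e : f i0 - g j0 = (f i0 - ∑ i, f i) - (g j0 - ∑ j, g j) + (∑ i, f i - ∑ j, g j) := by abel
  rw [e]
  exact Submodule.add_mem _ (Submodule.sub_mem _ h1 h2) hh

lemma aux_mem (K : Submodule k M) (a s t : M) (ht : t ∈ K) (hs : a - s ∈ K) :
    a - (s - t) ∈ K := by
  have e : a - (s - t) = t + (a - s) := by abel
  rw [e]
  exact Submodule.add_mem _ ht hs

end lin

namespace Dat

variable {k : Type} [Field k] {I : Type} [Fintype I] [DecidableEq I] (D : Dat k I)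

/-- The weight of a letter. -/
def wt (l : ℕ × I × I) : ℕ := D.U l.1 l.2.1 + D.U (l.1 + 1) l.2.2

/-- First letters of the left sides. -/
def lx : Rl I → ℕ × I × I
  | .ev i a _ => (i + 1, D.p i, a)
  | .co i o _ => (i, o, D.p (i + 1))
  | .ef m c a _ => (lev (m + 2), (D.piv m c).1, a)
  | .jf m c o _ => (lev m + 1, o, (D.piv (m + 2) c).2)

/-- Second letters of the left sides. -/
def ly : Rl I → ℕ × I × I
  | .ev i _ b => (i, D.p i, b)
  | .co i _ o' => (i + 1, o', D.p (i + 1))
  | .ef m c _ b => (lev (m + 1), (D.piv m c).2, b)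
  | .jf m c _ o' => (lev (m + 1) + 1, o', (D.piv (m + 2) c).1)

/-- The generators of the free algebra. -/
noncomputable def X (k : Type) [Field k] {I : Type} (i : ℕ) (o a : I) : FA k (ℕ × I × I) :=
  wd [(i, o, a)]

/-- The relations. -/
noncomputable def rl : Rl I → FA k (ℕ × I × I)
  | .ev i a b => evr (X k) i a b
  | .co i o o' => cor (X k) i o o'
  | .ef m c a b => Er D.T (X k) m c a b
  | .jf m c o o' => Ir D.T (X k) m c o o'

omit [Fintype I] [DecidableEq I] in
lemma X_mul (i j : ℕ) (a b c d : I) : X k i a b * X k j c d = wd [(i, a, b), (j, c, d)] := by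
  rw [X, X, wd_mul]; rfl

omit [Fintype I] in
lemma delta_mem (w : List (ℕ × I × I)) (hw : w ≠ []) (a b : I) :
    (if a = b then (1 : FA k (ℕ × I × I)) else 0) ∈ Lo D.wt w := by
  split_ifs
  · rw [← wd_nil]
    apply wd_mem_Lo
    left
    exact List.length_pos_iff.mpr hw
  · exact Submodule.zero_mem _

lemma hrel (r : Rl I) : (wd [D.lx r, D.ly r] - D.rl r : FA k (ℕ × I × I)) ∈
    Lo D.wt [D.lx r, D.ly r] := by
  cases r with
  | ev i a b =>
    simp only [lx, ly, rl, evr, X_mul]
    refine aux_mem _ _ _ _ (D.delta_mem _ (List.cons_ne_nil _ _) a b) ?_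
    apply sub_sum_mem (Lo D.wt _)
      (fun o => (wd [(i + 1, o, a), (i, o, b)] : FA k (ℕ × I × I))) (D.p i)
    intro o ho
    apply wd_mem_Lo
    right
    have := D.evdom i o ho
    simp only [List.length_cons, List.length_nil, List.map_cons, List.map_nil, List.sum_cons,
      List.sum_nil, wt, true_and]
    omega
  | co i o o' =>
    simp only [lx, ly, rl, cor, X_mul]
    refine aux_mem _ _ _ _ (D.delta_mem _ (List.cons_ne_nil _ _) o o') ?_
    apply sub_sum_mem (Lo D.wt _)
      (fun a => (wd [(i, o, a), (i + 1, o', a)] : FA k (ℕ × I × I))) (D.p (i + 1))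
    intro a ha
    apply wd_mem_Lo
    right
    have := D.evdom (i + 1) a ha
    simp only [List.length_cons, List.length_nil, List.map_cons, List.map_nil, List.sum_cons,
      List.sum_nil, wt, true_and]
    omega
  | ef m c a b =>
    simp only [lx, ly, rl, Er, X_mul]
    refine aux_mem _ _ _ _ ?_ ?_
    · apply Submodule.sum_mem
      intro l _
      apply Submodule.smul_mem
      apply wd_mem_Lo
      left
      simp
    · have h := sub_sum_mem (Lo D.wt [(lev (m + 2), (D.piv m c).1, a),
          (lev (m + 1), (D.piv m c).2, b)])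
        (fun q : I × I => D.T m q.1 q.2 c •
          (wd [(lev (m + 2), q.1, a), (lev (m + 1), q.2, b)] : FA k (ℕ × I × I))) (D.piv m c) (by
        intro q hq
        by_cases hT : D.T m q.1 q.2 c = 0
        · rw [hT, zero_smul]; exact Submodule.zero_mem _
        · apply Submodule.smul_mem
          apply wd_mem_Lo
          right
          have := D.dom m c q hT hq
          simp only [List.length_cons, List.length_nil, List.map_cons, List.map_nil,
            List.sum_cons, List.sum_nil, wt, true_and]
          omega)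
      simp only [D.Tpiv, one_smul] at h
      exact h
  | jf m c o o' =>
    simp only [lx, ly, rl, Ir, X_mul]
    refine aux_mem _ _ _ _ ?_ ?_
    · apply Submodule.sum_mem
      intro l _
      apply Submodule.smul_mem
      apply wd_mem_Lo
      left
      simp
    · have h := sub_sum_mem (Lo D.wt [(lev m + 1, o, (D.piv (m + 2) c).2),
          (lev (m + 1) + 1, o', (D.piv (m + 2) c).1)])
        (fun q : I × I => D.T (m + 2) q.1 q.2 c •
          (wd [(lev m + 1, o, q.2), (lev (m + 1) + 1, o', q.1)] : FA k (ℕ × I × I)))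
        (D.piv (m + 2) c) (by
        intro q hq
        by_cases hT : D.T (m + 2) q.1 q.2 c = 0
        · rw [hT, zero_smul]; exact Submodule.zero_mem _
        · apply Submodule.smul_mem
          apply wd_mem_Lo
          right
          have h1 := D.dom (m + 2) c q hT hq
          rw [show m + 2 + 2 = (m + 1) + 3 from rfl, show m + 2 + 1 = m + 3 from rfl, lev_add,
            lev_add] at h1
          simp only [List.length_cons, List.length_nil, List.map_cons, List.map_nil,
            List.sum_cons, List.sum_nil, wt, true_and]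
          have e1 : lev (m + 1) + 1 + 1 = lev (m + 1) + 2 := rfl
          have e2 : lev m + 1 + 1 = lev m + 2 := rfl
          rw [e1, e2]
          omega)
      simp only [D.Tpiv, one_smul] at h
      exact h

lemma lev_even (m : ℕ) : lev m % 2 = 0 := by
  unfold lev; omega

lemma uniq (r r' : Rl I) (hx : D.lx r = D.lx r') (hy : D.ly r = D.ly r') : r = r' := by
  cases r with
  | ev i a b =>
    cases r' with
    | ev i' a' b' =>
      simp only [lx, ly, Prod.mk.injEq] at hx hy
      obtain ⟨h1, -, h2⟩ := hx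
      obtain ⟨h3, -, h4⟩ := hy
      subst h2; subst h3; subst h4; rfl
    | co i' a' b' =>
      simp only [lx, ly, Prod.mk.injEq] at hx hy
      omega
    | ef m c a' b' =>
      simp only [lx, ly, Prod.mk.injEq] at hx hy
      have h1 := lev_even (m + 2)
      have h2 := lev_even (m + 1)
      omega
    | jf m c a' b' =>
      simp only [lx, ly, Prod.mk.injEq] at hx hy
      have h1 := lev_even m
      have h2 := lev_even (m + 1)
      omega
  | co i a b =>
    cases r' with
    | ev i' a' b' =>
      simp only [lx, ly, Prod.mk.injEq] at hx hy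
      omega
    | co i' a' b' =>
      simp only [lx, ly, Prod.mk.injEq] at hx hy
      obtain ⟨h1, h2, -⟩ := hx
      obtain ⟨h3, h4, -⟩ := hy
      subst h1; subst h2; subst h4; rfl
    | ef m c a' b' =>
      simp only [lx, ly, Prod.mk.injEq] at hx hy
      have h1 := lev_even (m + 2)
      have h2 := lev_even (m + 1)
      omega
    | jf m c a' b' =>
      simp only [lx, ly, Prod.mk.injEq] at hx hy
      have h1 := lev_even m
      have h2 := lev_even (m + 1)
      omega
  | ef m c a b =>
    cases r' with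
    | ev i' a' b' =>
      simp only [lx, ly, Prod.mk.injEq] at hx hy
      have h1 := lev_even (m + 2)
      have h2 := lev_even (m + 1)
      omega
    | co i' a' b' =>
      simp only [lx, ly, Prod.mk.injEq] at hx hy
      have h1 := lev_even (m + 2)
      have h2 := lev_even (m + 1)
      omega
    | ef m' c' a' b' =>
      simp only [lx, ly, Prod.mk.injEq] at hx hy
      obtain ⟨h1, h2, h3⟩ := hx
      obtain ⟨h4, h5, h6⟩ := hy
      obtain ⟨h7, h8⟩ := D.inj m c m' c' (Prod.ext h2 h5) h1 h4
      subst h7; subst h8; subst h3; subst h6; rfl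
    | jf m' c' a' b' =>
      simp only [lx, ly, Prod.mk.injEq] at hx hy
      have h1 := lev_even (m + 2)
      have h2 := lev_even m'
      omega
  | jf m c a b =>
    cases r' with
    | ev i' a' b' =>
      simp only [lx, ly, Prod.mk.injEq] at hx hy
      have h1 := lev_even m
      have h2 := lev_even (m + 1)
      omega
    | co i' a' b' =>
      simp only [lx, ly, Prod.mk.injEq] at hx hy
      have h1 := lev_even m
      have h2 := lev_even (m + 1)
      omega
    | ef m' c' a' b' =>
      simp only [lx, ly, Prod.mk.injEq] at hx hy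
      have h1 := lev_even (m' + 2)
      have h2 := lev_even m
      omega
    | jf m' c' a' b' =>
      simp only [lx, ly, Prod.mk.injEq] at hx hy
      obtain ⟨h1, h2, h3⟩ := hx
      obtain ⟨h4, h5, h6⟩ := hy
      obtain ⟨h7, h8⟩ := D.inj (m + 2) c (m' + 2) c' (Prod.ext h6 h3)
        (by rw [show m + 2 + 2 = (m + 1) + 3 from rfl, show m' + 2 + 2 = (m' + 1) + 3 from rfl,
              lev_add, lev_add]; omega)
        (by rw [show m + 2 + 1 = m + 3 from rfl, show m' + 2 + 1 = m' + 3 from rfl,
              lev_add, lev_add]; omega)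
      have h9 : m = m' := by omega
      subst h9; subst h8; subst h2; subst h5; rfl

/-- The rewriting system. -/
noncomputable def sys : RS k (ℕ × I × I) where
  R := Rl I
  x := D.lx
  y := D.ly
  rel := D.rl
  wt := D.wt
  hrel := D.hrel
  uniq := D.uniq

end Dat

end Pool.Agent.TH12.Hopf
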